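import Pool.Agent.X142.AZ.Ind
import Pool.Agent.H340R2.LW
import Pool.Agent.X255.RH.Loc
import Pool.Agent.X255.RH.Mea3

/-!
# `ζ (z)` and `π ^ z` at almost all algebraic numbers `z`, jointly for all conjugates

The problem asks whether `ζ(3) / π ^ 3` is rational. For positive real numbers `b_1, …, b_s` such that `2, b_1, …, b_s` are
multiplicatively independent (for instance `s = 1`, `b_1 = π`) and 100% of the integral polynomials of degree `g`, ordered
by the maximum `T` of the absolute values of the coefficients, we prove that the numbers `ζ (z)`, `b_1 ^ z`, …, `b_s ^ z`,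
`z` ALL roots of the polynomial different from `1`, satisfy no relation whose degree, and the degree of whose
coefficient field, is at most `ω (T)`, and whose coefficients are of size at most `T ^ ω (T)`, where `ω (T) → ∞` (the
coefficients may also contain arbitrary fixed complex numbers); in particular `ζ (z) / π ^ z` is not an algebraic number
of degree at most `ω (T)` and height at most `T ^ ω (T)`. We also prove lower bounds for polynomials of bounded degree in
these numbers, with arbitrary complex coefficients. The hand-in `RationalArguments` (helper142) is about the points of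
number fields of bounded degree, with coefficients in the same field.

Proof: `Pool.Agent.X255.NP` and `Pool.Agent.Y890.MV` (nonstandard versions of the Bombieri-Pila method), the algebraic
independence over `ℂ(z)` of the functions (`Pool.Agent.X142.AZ`), and `Pool.Agent.X255.RH` (independence of functions of
different variables; almost no integral polynomial has close roots).
-/

set_option autoImplicit false

open Polynomial Filter NumberField
open scoped Classical

namespace Pool.Agent.Results.MP_e47f08_nt.ConjugateArguments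

/-- the numbers `ζ (z)` and `b_k ^ z` -/
noncomputable def value {s : ℕ} (b : Fin s → ℝ) (z : ℂ) : Unit ⊕ Fin s → ℂ
  | Sum.inl _ => riemannZeta z
  | Sum.inr k => (b k : ℂ) ^ z

/-- the polynomial `a_g X ^ g + … + a_0` -/
noncomputable def poly {g : ℕ} (a : Fin (g + 1) → ℤ) : ℂ[X] := ∑ i, C (a i : ℂ) * X ^ (i : ℕ)

/-- the roots of the polynomial in the set `V` -/
noncomputable def rootsIn (V : Set ℂ) {g : ℕ} (a : Fin (g + 1) → ℤ) : Finset ℂ :=
  (poly a).roots.toFinset.filter fun z => z ∈ V

/-- The numbers `x q`, `q ∈ Q`, satisfy no relation of degree at most `k` in each of them with coefficients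
`∑ ξ b * c b`, `b < k`, where the `c b` are integers of a number field of degree at most `k`, all of whose conjugates
are of absolute value at most `T ^ k`, except the relations all of whose coefficients vanish. -/
def Unrelated {Q : Type} [Fintype Q] [DecidableEq Q] (ξ : ℕ → ℂ) (k : ℕ) (T : ℝ) (x : Q → ℂ) : Prop :=
  ∀ (F : Type) [Field F] [NumberField F], Module.finrank ℚ F ≤ k → ∀ (io : F →+* ℂ)
    (c : (Q → Fin (k + 1)) → Fin k → 𝓞 F), (∀ l b (φ : F →+* ℂ), ‖φ (c l b : F)‖ ≤ T ^ k) →
    ∑ l, (∑ b : Fin k, ξ b * io (c l b : F)) * ∏ q, x q ^ (l q : ℕ) = 0 → ∀ l, ∑ b : Fin k, ξ b * io (c l b : F) = 0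

/-- Every polynomial `P` of degree at most `k` in each of the numbers `x q`, with coefficients `∑ ξ b * c b`, `b < k`,
where the `c b` are rational integers of absolute value at most `T ^ k`, satisfies `|P (x)| ≥ T ^ (-B) |p|` for each of
its coefficients `p`. -/
def Measure {Q : Type} [Fintype Q] [DecidableEq Q] (ξ : ℕ → ℂ) (k : ℕ) (B T : ℝ) (x : Q → ℂ) : Prop :=
  ∀ c : (Q → Fin (k + 1)) → Fin k → ℤ, (∀ l b, |(c l b : ℝ)| ≤ T ^ k) → ∀ l₀,
    T ^ (-B) * ‖∑ b : Fin k, ξ b * (c l₀ b : ℂ)‖ ≤
      ‖∑ l, (∑ b : Fin k, ξ b * (c l b : ℂ)) * ∏ q, x q ^ (l q : ℕ)‖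

/-- the `a` with `|a_i| ≤ T` -/
noncomputable def box (g T : ℕ) : Finset (Fin (g + 1) → ℤ) := Fintype.piFinset fun _ => Finset.Icc (-(T : ℤ)) T

/-- the numbers `ζ (z)` and `b_k ^ z`, `z` all roots of `a` different from `1` -/
noncomputable def numbers {g s : ℕ} (b : Fin s → ℝ) (a : Fin (g + 1) → ℤ)
    (q : {z // z ∈ rootsIn {1}ᶜ a} × (Unit ⊕ Fin s)) : ℂ :=
  value b q.1 q.2

/-- `a` is of degree `g`, with simple roots, and the numbers are unrelated -/
def Good {g s : ℕ} (b : Fin s → ℝ) (ξ : ℕ → ℂ) (k : ℕ) (T : ℝ) (a : Fin (g + 1) → ℤ) : Prop :=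
  a (Fin.last g) ≠ 0 ∧ (poly a).Separable ∧ Unrelated ξ k T (numbers b a)

/-- `a` is of degree `g`, with simple roots, and the numbers satisfy the lower bounds -/
def GoodM {g s : ℕ} (b : Fin s → ℝ) (ξ : ℕ → ℂ) (k : ℕ) (B T : ℝ) (a : Fin (g + 1) → ℤ) : Prop :=
  a (Fin.last g) ≠ 0 ∧ (poly a).Separable ∧ Measure ξ k B T (numbers b a)

/-- `a` is of degree `g`, its roots are simple, of absolute value at most `R`, at distance at least `η` from each other,
and the roots in `V` are at distance at least `η` from the complement of `V` -/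
def Position (V : Set ℂ) (R η : ℝ) {g : ℕ} (a : Fin (g + 1) → ℤ) : Prop :=
  a (Fin.last g) ≠ 0 ∧ (poly a).Separable ∧ ∀ z, (poly a).eval z = 0 → ‖z‖ ≤ R ∧
    (∀ w, (poly a).eval w = 0 → w ≠ z → η ≤ ‖z - w‖) ∧ (z ∈ V → Metric.ball z η ⊆ V)

/-- `2` and `π` are multiplicatively independent -/
theorem mulInd (a : ℤ) (e : Fin 1 → ℤ) (h : (2 : ℝ) ^ a * ∏ k, (fun _ : Fin 1 => Real.pi) k ^ e k = 1) :
    a = 0 ∧ e = 0 := by
  have hpi := Pool.Agent.H340R2.LW.transcendental_pi
  simp only [Finset.univ_unique, Finset.prod_singleton] at h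
  have he : e default = 0 := by
    by_contra hne
    have h2 : Real.pi ^ (e default) = ((2 : ℚ) ^ (-a) : ℚ) := by
      push_cast
      rw [zpow_neg]
      field_simp
      rw [mul_comm]
      exact h
    have halg : IsAlgebraic ℚ (Real.pi ^ (e default)) := by
      rw [h2]
      exact isAlgebraic_algebraMap ((2 : ℚ) ^ (-a))
    rcases lt_or_gt_of_ne hne with hlt | hgt
    · have h3 : IsAlgebraic ℚ (Real.pi ^ (-(e default)).toNat) := by
        have h4 : Real.pi ^ (-(e default)).toNat = (Real.pi ^ (e default))⁻¹ := by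
          rw [← zpow_natCast, ← zpow_neg]
          congr 1
          omega
        rw [h4]
        exact halg.inv
      exact hpi (IsAlgebraic.of_pow (by omega) h3)
    · have h3 : IsAlgebraic ℚ (Real.pi ^ (e default).toNat) := by
        have h4 : Real.pi ^ (e default).toNat = Real.pi ^ (e default) := by
          rw [← zpow_natCast]
          congr 1
          omega
        rw [h4]
        exact halg
      exact hpi (IsAlgebraic.of_pow (by omega) h3)
  rw [he, zpow_zero, mul_one] at h
  refine ⟨?_, ?_⟩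
  · by_contra hne
    rw [zpow_eq_one_iff_right₀ (by norm_num) (by norm_num)] at h
    exact hne h
  · funext k
    have : k = default := Subsingleton.elim _ _
    rw [this, he]
    rfl

/-- **Theorem.** Let `g ≥ 1` and let `b_k > 0` be such that `2, b_1, …, b_s` are multiplicatively independent.
(1) For every sequence `ξ` there is a monotone `ω`, `ω(T) → ∞`, such that the proportion of the polynomials with
`|a_i| ≤ T` which are not `Good` with `k = ω(T)` is at most `1 / ω(T)`.
(2) For every `k ≥ 1` there are `B` and `T₀` such that for `T ≥ T₀` and all `ξ` (which may depend on `T`) the proportion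
of the polynomials with `|a_i| ≤ T` which are not `GoodM` is at most `1 / k`.
(3) For fixed `k ≥ 1`, `R`, `η > 0` and `ε > 0` there are `B`, `C` such that for all `ξ` the lower bounds
`Measure ξ k B T` hold for all but `C T ^ (g + ε)` of the polynomials with `|a_i| ≤ T` whose roots are in the compact
position `Position {1}ᶜ R η` (there are about `(2 T) ^ (g + 1)` polynomials).
(4) `2` and `π` are multiplicatively independent, so that `s = 1`, `b_1 = π` is an example. -/
theorem result (g s : ℕ) (hg : 0 < g) (b : Fin s → ℝ) (hb : ∀ k, 0 < b k)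
    (hm : ∀ (a : ℤ) (e : Fin s → ℤ), (2 : ℝ) ^ a * ∏ k, b k ^ e k = 1 → a = 0 ∧ e = 0) :
    (∀ ξ : ℕ → ℂ, ∃ ω : ℕ → ℕ, Tendsto ω atTop atTop ∧ Monotone ω ∧ ∀ T,
      ω T * ((box g T).filter fun a => ¬ Good b ξ (ω T) T a).card ≤ (box g T).card) ∧
    (∀ k : ℕ, 1 ≤ k → ∃ (B : ℝ) (T₀ : ℕ), ∀ T : ℕ, T₀ ≤ T → ∀ ξ : ℕ → ℂ,
      (k : ℝ) * ((box g T).filter fun a => ¬ GoodM b ξ k B T a).card ≤ (box g T).card) ∧
    (∀ (k : ℕ) (R η ε : ℝ), 1 ≤ k → 0 < η → 0 < ε → ∃ B C : ℝ, ∀ T : ℕ, 1 ≤ T → ∀ ξ : ℕ → ℂ,
      (((box g T).filter fun a => Position {1}ᶜ R η a ∧ ¬ Measure ξ k B T (numbers b a)).card : ℝ) ≤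
        C * (T : ℝ) ^ ((g : ℝ) + ε)) ∧
    ∀ (a : ℤ) (e : Fin 1 → ℤ), (2 : ℝ) ^ a * ∏ k, (fun _ : Fin 1 => Real.pi) k ^ e k = 1 → a = 0 ∧ e = 0 := by
  have hop : IsOpen ({1}ᶜ : Set ℂ) := isOpen_compl_singleton
  have hpre : IsPreconnected ({1}ᶜ : Set ℂ) := by
    have h1 := (Set.countable_singleton (1 : ℂ)).isPathConnected_compl_of_one_lt_rank (by
      rw [Complex.rank_real_complex]
      norm_num)
    exact h1.isConnected.isPreconnected
  have hne : ({1}ᶜ : Set ℂ).Nonempty := ⟨0, by simp⟩
  have htame : Pool.Agent.X255.RH.Tame {1}ᶜ {1}ᶜ :=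
    Pool.Agent.X255.RH.tame_of_discrete fun R => (Set.finite_singleton _).inter_of_left _
  have hval : (fun w z => value b z w) = Pool.Agent.X142.AZ.fA b := by
    funext w z
    rcases w with u | k <;> rfl
  have han : ∀ w : Unit ⊕ Fin s, AnalyticOnNhd ℂ (fun z => value b z w) {1}ᶜ := by
    intro w z hz
    have h1 := Pool.Agent.X142.AZ.fA_analytic b hb w (z := z) hz
    rw [← congrFun hval w] at h1
    exact h1
  have hind : Pool.Agent.X255.RH.Indep {1}ᶜ (fun w z => value b z w) := by
    rw [hval]
    exact Pool.Agent.X255.RH.indep_of_loc hop hne fun t ht => Pool.Agent.X142.AZ.locIndA b hb hm t ht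
  refine ⟨fun ξ => ?_, fun k hk => ?_, fun k R η ε hk hη hε => ?_, mulInd⟩
  · exact Pool.Agent.X255.RH.main_all (g := g) hg hpre hop (fun _ => {1}ᶜ) (fun _ => htame) han hind ξ
  · exact Pool.Agent.X255.RH.mea_all (g := g) hg hpre hop htame han hind k hk
  · exact Pool.Agent.X255.RH.mea_eps (g := g) hg hpre hop han hind {1}ᶜ k R η ε hη hε

end Pool.Agent.Results.MP_e47f08_nt.ConjugateArguments
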