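import Mathlib
import Pool.Agent.X142.AZ.Hurw
import Pool.Agent.X142.AZ.FewPi

/-!
# `ζ(3) / π ^ 3`: the numbers `ζ(3, x) / π ^ 3` at almost all rational `x`, and relations over `ℤ[π]`

The number `ζ(3) / π ^ 3` is the value at `x = 1` of `ζ(3, x) / π ^ 3`, where `ζ(3, x)` is the Hurwitz zeta
value. We prove that for all but very few rational numbers `x` the number `ζ(3, x) / π ^ 3` is not rational
or algebraic, of bounded degree and of height at most a power of the height of `x`, not even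
approximately; and that for all but very few elements `x` of a number field the numbers `ζ(2, x)`, …,
`ζ(K + 1, x)` satisfy no polynomial relation over `ℤ[π]` of bounded complexity, even approximately.
The main new point is that `ζ(2, z)`, …, `ζ(K + 1, z)` are algebraically independent over `ℂ(z)`.
-/

set_option autoImplicit false

open NumberField

namespace Pool.Agent.Results.MP_e47f08_nt.HurwitzArguments

/-- The Hurwitz zeta value `ζ(k, z) = ∑_{n ≥ 0} 1 / (z + n) ^ k`; `ζ(k, 1) = ζ(k)`. -/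
noncomputable def hurwitz (k : ℕ) (z : ℂ) : ℂ := ∑' n : ℕ, ((z + n) ^ k)⁻¹

/-- A nonzero polynomial with integer coefficients, of degree at most `m` and with coefficients of
absolute value at most `H`, has absolute value at most `η` at `y`. -/
def NearAlg (m : ℕ) (H η : ℝ) (y : ℂ) : Prop :=
  ∃ Q : Polynomial ℤ, Q ≠ 0 ∧ Q.natDegree ≤ m ∧ (∀ i, |(Q.coeff i : ℝ)| ≤ H) ∧
    ‖Polynomial.aeval y Q‖ ≤ η

/-- `x = a / c` with integers `a`, `c` of the number field `F`, all of whose conjugates have absolute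
value at most `T`. -/
def HeightLe (F : Type) [Field F] [NumberField F] (T : ℝ) (x : F) : Prop :=
  ∃ a c : 𝓞 F, c ≠ 0 ∧ (∀ φ : F →+* ℂ, ‖φ a‖ ≤ T ∧ ‖φ c‖ ≤ T) ∧ x = a / c

/-- A nonzero polynomial in `K` variables, of degree at most `m` in each of them, with coefficients
`c(π)`, where the `c` are integer polynomials of degree at most `m` with coefficients of absolute value at
most `H`, not all zero, has absolute value at most `η` at the point `(ζ(2, z), …, ζ(K + 1, z))`. -/
def NearRelation (K m : ℕ) (H η : ℝ) (z : ℂ) : Prop :=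
  ∃ Q : MvPolynomial (Fin K) (Polynomial ℤ), Q ≠ 0 ∧ (∀ y, Q.degreeOf y ≤ m) ∧
    (∀ s, (Q.coeff s).natDegree ≤ m) ∧ (∀ s i, |(((Q.coeff s).coeff i : ℤ) : ℝ)| ≤ H) ∧
    ‖Q.eval₂ (Polynomial.aeval (Real.pi : ℂ)).toRingHom (fun k : Fin K => hurwitz ((k : ℕ) + 2) z)‖ ≤ η

/-- Let `L` be a compact set of complex numbers without the points `0, -1, -2, …`; let `A`, `ε > 0` be
real and `m` a natural number.
(1) There are `B`, `C`, `T₀` such that for all `T ≥ T₀` there are at most `C T ^ ε` rational numbers `x` in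
`L` with numerator and denominator at most `T` in absolute value such that
`|Q(ζ(3, x) / π ^ 3)| ≤ T ^ (-B)` for some nonzero `Q ∈ ℤ[X]` of degree at most `m` with coefficients of
absolute value at most `T ^ A`.
(2) For all `K` there are `B`, `C`, `T₀` such that for every number field `F` of degree at most `m`, every
embedding `ι` and all `T ≥ T₀` there are at most `C T ^ ε` elements `x` of `F` in `L` of height at most `T`
for which `ζ(2, x)`, …, `ζ(K + 1, x)` satisfy an approximate relation over `ℤ[π]` (`NearRelation`) of degrees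
at most `m`, with height `T ^ A` and error `T ^ (-B)`. -/
theorem result (L : Set ℂ) (hL : IsCompact L) (hL0 : ∀ z ∈ L, ∀ n : ℕ, z ≠ -n) (A ε : ℝ) (hε : 0 < ε)
    (m : ℕ) :
    (∃ B C T₀ : ℝ, ∀ T : ℝ, T₀ ≤ T →
      (({x : ℚ | (x : ℂ) ∈ L ∧ |(x.num : ℝ)| ≤ T ∧ (x.den : ℝ) ≤ T ∧
        NearAlg m (T ^ A) (T ^ (-B)) (hurwitz 3 x / (Real.pi : ℂ) ^ 3)}.ncard : ℕ) : ℝ) ≤ C * T ^ ε) ∧
    ∀ K : ℕ, ∃ B C T₀ : ℝ, ∀ (F : Type) [Field F] [NumberField F], Module.finrank ℚ F ≤ m →
      ∀ (ι : F →+* ℂ) (T : ℝ), T₀ ≤ T →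
        (({x : F | ι x ∈ L ∧ HeightLe F T x ∧ NearRelation K m (T ^ A) (T ^ (-B)) (ι x)}.ncard : ℕ) : ℝ) ≤
          C * T ^ ε := by
  classical
  refine ⟨?_, fun K => ?_⟩
  · obtain ⟨B, C, T₀, hT₀, hC, H⟩ := Pool.Agent.X142.AZ.few (fun _ : Fin 1 => Pool.Agent.X142.AZ.hz 3) L hL
      (fun y z hz => Pool.Agent.X142.AZ.hz_analytic (by norm_num) (hL0 z hz))
      (fun z hz => Pool.Agent.X142.AZ.locIndH MonomialOrder.lex (fun _ : Fin 1 => 3)
        (fun i j _ => Subsingleton.elim i j) (fun k => by norm_num) (hL0 z hz)) m m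
      (fun i _ => (i : ℕ)) (fun i j h => Fin.ext (congrFun h 0)) (fun i _ => Nat.lt_succ_iff.1 i.2)
      A (3 * m * 2) ε hε
    refine ⟨B, C, max T₀ Real.pi, fun T hT => ?_⟩
    have hTT₀ : T₀ ≤ T := (le_max_left _ _).trans hT
    have hT2 : 2 ≤ T := hT₀.trans hTT₀
    have hT0 : 0 < T := by linarith
    have hTπ : Real.pi ≤ T := (le_max_right _ _).trans hT
    refine Pool.Agent.X142.DN.ncard_le (by positivity) fun S hS => ?_
    refine H T hTT₀ (fun i => (((Real.pi : ℂ) ^ 3) ^ (i : ℕ))⁻¹) ?_ S fun x hx => ?_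
    · intro i
      have hi : (i : ℕ) ≤ m := Nat.lt_succ_iff.1 i.2
      rw [norm_inv, norm_pow, norm_pow, Complex.norm_real, Real.norm_of_nonneg Real.pi_pos.le,
        Real.rpow_neg hT0.le]
      apply inv_anti₀ (by positivity)
      rw [← pow_mul, ← Real.rpow_natCast]
      have h1 : (1 : ℝ) ≤ T := by linarith
      calc Real.pi ^ ((3 * (i : ℕ) : ℕ) : ℝ) ≤ T ^ ((3 * (i : ℕ) : ℕ) : ℝ) :=
            Real.rpow_le_rpow Real.pi_pos.le hTπ (Nat.cast_nonneg _)
        _ ≤ T ^ ((3 : ℝ) * m * 2) := by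
            apply Real.rpow_le_rpow_of_exponent_le h1
            have h2 : ((i : ℕ) : ℝ) ≤ m := by exact_mod_cast hi
            push_cast
            nlinarith [Nat.cast_nonneg (α := ℝ) m]
    · obtain ⟨hxL, hxn, hxd, Q, hQ0, hQm, hQA, hQs⟩ := hS x hx
      refine ⟨hxL, hxn, hxd, fun i => Q.coeff i, ?_, fun i => hQA i, ?_⟩
      · intro h
        apply hQ0
        ext i
        rcases Nat.lt_or_ge i (m + 1) with hi | hi
        · have := congrFun h ⟨i, hi⟩
          simpa using this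
        · rw [Polynomial.coeff_eq_zero_of_natDegree_lt (by omega), Polynomial.coeff_zero]
      · refine le_trans (le_of_eq ?_) hQs
        congr 1
        rw [Polynomial.aeval_eq_sum_range' (Nat.lt_succ_of_le hQm),
          ← Fin.sum_univ_eq_sum_range (fun i => Q.coeff i • (hurwitz 3 x / (Real.pi : ℂ) ^ 3) ^ i) (m + 1)]
        refine Finset.sum_congr rfl fun i _ => ?_
        rw [zsmul_eq_mul, div_pow, Fin.prod_univ_one]
        have : Pool.Agent.X142.AZ.hz 3 (x : ℂ) = hurwitz 3 x := rfl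
        rw [this]
        ring
  · obtain ⟨B, C, T₀, -, H⟩ := Pool.Agent.X142.AZ.fewPi
      (fun k : Fin K => Pool.Agent.X142.AZ.hz ((k : ℕ) + 2)) L hL
      (fun y z hz => Pool.Agent.X142.AZ.hz_analytic (by omega) (hL0 z hz))
      (fun z hz => Pool.Agent.X142.AZ.locIndH MonomialOrder.lex (fun k : Fin K => (k : ℕ) + 2)
        (fun i j h => Fin.ext (by simpa using h)) (fun k => by omega) (hL0 z hz))
      Real.pi Pool.Agent.TH456.TM.measT_pi m A ε hε
    exact ⟨B, C, T₀, fun F _ _ hF ι T hT => H F hF ι T hT⟩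

end Pool.Agent.Results.MP_e47f08_nt.HurwitzArguments
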