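import Mathlib
import Pool.Agent.X142.AZ.Ind
import Pool.Agent.X142.AZ.Few
import Pool.Agent.X142.DN.Int
import Pool.Agent.H340R2.LW

/-!
# `ζ(s) / π ^ s` at almost all rational and algebraic numbers `s`

The number `ζ(3) / π ^ 3` is the value at `s = 3` of the function `ζ(s) / π ^ s`. We prove that for
all but very few rational numbers `x` near any point the number `ζ(x) / π ^ x` is not rational, and
not close to a rational or algebraic number of bounded degree and of height at most a power of the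
height of `x`, also after multiplication by an arbitrary number; and that for almost all tuples of
elements `t_l` of a number field the numbers `ζ(t_l)` and `π ^ (t_l)` satisfy no polynomial relation of
bounded complexity, even approximately.
-/

set_option autoImplicit false

open NumberField

namespace Pool.Agent.Results.MP_e47f08_nt.RationalArguments

/-- A nonzero polynomial with integer coefficients, of degree at most `m` and with coefficients of
absolute value at most `H`, has absolute value at most `η` at `y`. -/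
def NearAlg (m : ℕ) (H η : ℝ) (y : ℂ) : Prop :=
  ∃ Q : Polynomial ℤ, Q ≠ 0 ∧ Q.natDegree ≤ m ∧ (∀ i, |(Q.coeff i : ℝ)| ≤ H) ∧
    ‖Polynomial.aeval y Q‖ ≤ η

/-- The functions `ζ(z)` and `π ^ z`. -/
noncomputable def value : Fin 2 → ℂ → ℂ
  | 0 => riemannZeta
  | 1 => fun z => (Real.pi : ℂ) ^ z

/-- `x = a / c` with integers `a`, `c` of the number field `F`, all of whose conjugates have absolute
value at most `T`. -/
def HeightLe (F : Type) [Field F] [NumberField F] (T : ℝ) (x : F) : Prop :=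
  ∃ a c : 𝓞 F, c ≠ 0 ∧ (∀ φ : F →+* ℂ, ‖φ a‖ ≤ T ∧ ‖φ c‖ ≤ T) ∧ x = a / c

/-- The `N`-tuples `t` of elements of the finite set `X` for which there is a polynomial `P` in `2 N`
variables, of degree at most `d` in each of them, with coefficients of the form `∑ ξ_i ι(c_i)`, where
the `c_i` are integers of `F` all of whose conjugates have absolute value at most `T ^ A`, such that
the value of `P` at the numbers `ζ(t_l)`, `π ^ (t_l)`, `l < N`, is at most `T ^ (-B)` times the
absolute value of some nonzero coefficient of `P`. -/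
def Exceptional {g : ℕ} (N d : ℕ) (F : Type) [Field F] [NumberField F] (ι : F →+* ℂ) (ξ : Fin g → ℂ)
    (X : Finset F) (A B T : ℝ) : Set (Fin N → F) :=
  {t | (∀ l, t l ∈ X) ∧ ∃ P : MvPolynomial (Fin N × Fin 2) ℂ, (∀ x, P.degreeOf x ≤ d) ∧
    (∀ u, ∃ c : Fin g → 𝓞 F, (∀ i (φ : F →+* ℂ), ‖φ (c i)‖ ≤ T ^ A) ∧ P.coeff u = ∑ i, ξ i * ι (c i)) ∧
    ∃ u₀, P.coeff u₀ ≠ 0 ∧
      ‖MvPolynomial.aeval (fun x : Fin N × Fin 2 => value x.2 (ι (t x.1))) P‖ ≤
        T ^ (-B) * ‖P.coeff u₀‖}

lemma mulInd (a : ℤ) (e : Fin 1 → ℤ) (h : (2 : ℝ) ^ a * ∏ k, (fun _ : Fin 1 => Real.pi) k ^ e k = 1) :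
    a = 0 ∧ e = 0 := by
  have hpi := Pool.Agent.H340R2.LW.transcendental_pi
  simp only [Finset.univ_unique, Finset.prod_singleton] at h
  have he : e default = 0 := by
    by_contra hne
    have h2 : Real.pi ^ (e default) = ((2 : ℚ) ^ (-a) : ℚ) := by
      push_cast
      rw [zpow_neg]
      field_simp
      rw [mul_comm]
      exact h
    have halg : IsAlgebraic ℚ (Real.pi ^ (e default)) := by
      rw [h2]
      exact isAlgebraic_algebraMap ((2 : ℚ) ^ (-a))
    rcases lt_or_gt_of_ne hne with hlt | hgt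
    · have h3 : IsAlgebraic ℚ (Real.pi ^ (-(e default)).toNat) := by
        have h4 : Real.pi ^ (-(e default)).toNat = (Real.pi ^ (e default))⁻¹ := by
          rw [← zpow_natCast, ← zpow_neg]
          congr 1
          omega
        rw [h4]
        exact halg.inv
      exact hpi (IsAlgebraic.of_pow (by omega) h3)
    · have h3 : IsAlgebraic ℚ (Real.pi ^ (e default).toNat) := by
        have h4 : Real.pi ^ (e default).toNat = Real.pi ^ (e default) := by
          rw [← zpow_natCast]
          congr 1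
          omega
        rw [h4]
        exact halg
      exact hpi (IsAlgebraic.of_pow (by omega) h3)
  rw [he, zpow_zero, mul_one] at h
  refine ⟨?_, ?_⟩
  · by_contra hne
    rw [zpow_eq_one_iff_right₀ (by norm_num) (by norm_num)] at h
    exact hne h
  · funext k
    have : k = default := Subsingleton.elim _ _
    rw [this, he]
    rfl

lemma value_analytic (y : Fin 2) {z : ℂ} (hz : z ≠ 1) : AnalyticAt ℂ (value y) z := by
  fin_cases y
  · exact analyticOn_riemannZeta z hz
  · exact Pool.Agent.X142.AZ.analytic_cpow Real.pi_pos z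

lemma value_locInd {z : ℂ} (hz : z ≠ 1) : Pool.Agent.Y124.LocInd value z := by
  have h1 := Pool.Agent.X142.AZ.locIndA (fun _ : Fin 1 => Real.pi) (fun _ => Real.pi_pos) mulInd z hz
  have h2 := Pool.Agent.X142.AZ.locInd_equiv
    (⟨fun y => if y = 0 then Sum.inl () else Sum.inr 0, Sum.elim (fun _ => 0) (fun _ => 1),
      by decide, by decide⟩ : Fin 2 ≃ Unit ⊕ Fin 1) _ h1
  refine (funext fun y => ?_ : value = _) ▸ h2
  fin_cases y <;> rfl

/-- Let `L` be a compact subset of `ℂ` not containing `1`, and let `A`, `ε > 0` be real.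
(1) For all `m` and `c` there are `B`, `C`, `T₀` such that for all `T ≥ T₀` and all complex `ξ ≠ 0` with
`|ξ| ≤ T ^ c` (for instance `ξ = 1`) there are at most `C T ^ ε` rational numbers `x` in `L` with
numerator and denominator at most `T` in absolute value such that `|Q(ζ(x) / (ξ π ^ x))| ≤ T ^ (-B)`
for some nonzero `Q ∈ ℤ[X]` of degree at most `m` with coefficients of absolute value at most `T ^ A`.
(2) For all `m`, `N`, `g`, `d` there are `B`, `C`, `T₀` such that for every number field `F` of degree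
at most `m`, every embedding `ι`, all complex numbers `ξ_1, …, ξ_g`, all `T ≥ T₀` and every finite set
`X` of elements of `F` in `L` of height at most `T` there are at most `C T ^ ε |X| ^ (N - 1)`
exceptional `N`-tuples of elements of `X`. -/
theorem result (L : Set ℂ) (hL : IsCompact L) (hL1 : (1 : ℂ) ∉ L) (A ε : ℝ) (hε : 0 < ε) :
    (∀ (m : ℕ) (c : ℝ), ∃ B C T₀ : ℝ, ∀ T : ℝ, T₀ ≤ T → ∀ ξ : ℂ, ξ ≠ 0 → ‖ξ‖ ≤ T ^ c →
      (({x : ℚ | (x : ℂ) ∈ L ∧ |(x.num : ℝ)| ≤ T ∧ (x.den : ℝ) ≤ T ∧
        NearAlg m (T ^ A) (T ^ (-B)) (riemannZeta x / (ξ * (Real.pi : ℂ) ^ (x : ℂ)))}.ncard : ℕ) : ℝ) ≤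
          C * T ^ ε) ∧
    ∀ m N g d : ℕ, ∃ B C T₀ : ℝ,
      ∀ (F : Type) [Field F] [NumberField F], Module.finrank ℚ F ≤ m → ∀ (ι : F →+* ℂ) (ξ : Fin g → ℂ) (T : ℝ),
        T₀ ≤ T → ∀ X : Finset F, (∀ x ∈ X, ι x ∈ L ∧ HeightLe F T x) →
          ((Exceptional N d F ι ξ X A B T).ncard : ℝ) ≤ C * T ^ ε * (X.card : ℝ) ^ (N - 1) := by
  classical
  have hne : ∀ z ∈ L, z ≠ 1 := fun z hz h => hL1 (h ▸ hz)
  refine ⟨fun m c => ?_, fun m N g d => ?_⟩
  · obtain ⟨B, C, T₀, hT₀, hC, H⟩ := Pool.Agent.X142.AZ.few value L hL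
      (fun y t ht => value_analytic y (hne t ht)) (fun t ht => value_locInd (hne t ht)) m m
      (fun i => ![(i : ℕ), m - i]) (by
        intro i j h
        have := congrFun h 0
        simp only [Matrix.cons_val_zero] at this
        exact Fin.ext this)
      (by
        intro i y
        fin_cases y
        · simpa using Nat.lt_succ_iff.1 i.2
        · simp)
      A (|c| * m) ε hε
    -- a bound for `π ^ z`
    have hcont : ContinuousOn (fun z : ℂ => (Real.pi : ℂ) ^ z) L := fun z _ =>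
      (Pool.Agent.X142.AZ.analytic_cpow Real.pi_pos z).continuousAt.continuousWithinAt
    obtain ⟨M, hM⟩ := hL.exists_bound_of_continuousOn hcont
    refine ⟨B + 1, C, max T₀ (|M| ^ m), fun T hT ξ hξ0 hξ => ?_⟩
    have hTT₀ : T₀ ≤ T := (le_max_left _ _).trans hT
    have hT2 : 2 ≤ T := hT₀.trans hTT₀
    have hT0 : 0 < T := by linarith
    have hTM : |M| ^ m ≤ T := (le_max_right _ _).trans hT
    refine Pool.Agent.X142.DN.ncard_le (by positivity) fun S hS => ?_
    refine H T hTT₀ (fun i => (ξ ^ (i : ℕ))⁻¹) ?_ S fun x hx => ?_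
    · intro i
      rw [norm_inv, norm_pow, Real.rpow_neg hT0.le]
      have hi : (i : ℕ) ≤ m := Nat.lt_succ_iff.1 i.2
      apply inv_anti₀ (pow_pos (norm_pos_iff.2 hξ0) _)
      have h1 : ‖ξ‖ ≤ T ^ |c| := hξ.trans (Real.rpow_le_rpow_of_exponent_le (by linarith) (le_abs_self c))
      have h2 : 1 ≤ T ^ |c| := Real.one_le_rpow (by linarith) (abs_nonneg c)
      calc ‖ξ‖ ^ (i : ℕ) ≤ (T ^ |c|) ^ (i : ℕ) := pow_le_pow_left₀ (norm_nonneg _) h1 _
        _ ≤ (T ^ |c|) ^ m := pow_le_pow_right₀ h2 hi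
        _ = T ^ (|c| * m) := by rw [← Real.rpow_natCast, ← Real.rpow_mul hT0.le]
    · obtain ⟨hxL, hxn, hxd, Q, hQ0, hQm, hQA, hQs⟩ := hS x hx
      refine ⟨hxL, hxn, hxd, fun i => Q.coeff i, ?_, fun i => hQA i, ?_⟩
      · intro h
        apply hQ0
        ext i
        rcases Nat.lt_or_ge i (m + 1) with hi | hi
        · have := congrFun h ⟨i, hi⟩
          simpa using this
        · rw [Polynomial.coeff_eq_zero_of_natDegree_lt (by omega), Polynomial.coeff_zero]
      · have hp0 : (Real.pi : ℂ) ^ (x : ℂ) ≠ 0 := by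
          rw [Complex.cpow_def_of_ne_zero (by exact_mod_cast Real.pi_pos.ne')]
          exact Complex.exp_ne_zero _
        have key : ∑ i : Fin (m + 1), (ξ ^ (i : ℕ))⁻¹ * (Q.coeff i : ℂ) *
            ∏ y, value y x ^ (![(i : ℕ), m - i] : Fin 2 → ℕ) y =
            ((Real.pi : ℂ) ^ (x : ℂ)) ^ m *
              Polynomial.aeval (riemannZeta x / (ξ * (Real.pi : ℂ) ^ (x : ℂ))) Q := by
          rw [Polynomial.aeval_eq_sum_range' (Nat.lt_succ_of_le hQm), Finset.mul_sum,
            ← Fin.sum_univ_eq_sum_range (fun i => ((Real.pi : ℂ) ^ (x : ℂ)) ^ m *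
              (Q.coeff i • (riemannZeta x / (ξ * (Real.pi : ℂ) ^ (x : ℂ))) ^ i)) (m + 1)]
          refine Finset.sum_congr rfl fun i _ => ?_
          have hi : (i : ℕ) ≤ m := Nat.lt_succ_iff.1 i.2
          rw [Fin.prod_univ_two]
          simp only [Matrix.cons_val_zero, Matrix.cons_val_one, value]
          have e1 : ((Real.pi : ℂ) ^ (x : ℂ)) ^ m =
              ((Real.pi : ℂ) ^ (x : ℂ)) ^ (i : ℕ) * ((Real.pi : ℂ) ^ (x : ℂ)) ^ (m - i) := by
            rw [← pow_add]
            congr 1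
            omega
          rw [e1, zsmul_eq_mul, div_pow, mul_pow]
          field_simp
        rw [key, norm_mul, norm_pow, neg_add, Real.rpow_add hT0] at *
        have h1 : ‖(Real.pi : ℂ) ^ (x : ℂ)‖ ^ m ≤ T := by
          refine le_trans (pow_le_pow_left₀ (norm_nonneg _) ((hM _ hxL).trans (le_abs_self M)) m) hTM
        have h2 : 0 ≤ T ^ (-B) * T ^ (-1 : ℝ) := by positivity
        calc ‖(Real.pi : ℂ) ^ (x : ℂ)‖ ^ m *
              ‖Polynomial.aeval (riemannZeta x / (ξ * (Real.pi : ℂ) ^ (x : ℂ))) Q‖ ≤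
              T * (T ^ (-B) * T ^ (-1 : ℝ)) := mul_le_mul h1 hQs (norm_nonneg _) hT0.le
          _ = T ^ (-B) := by
              rw [Real.rpow_neg_one]
              field_simp
  · obtain ⟨B, C, T₀, -, -, H⟩ := Pool.Agent.Y771.RP.mainS m N g d value L hL
      (fun y t ht => value_analytic y (hne t ht)) (fun t ht => value_locInd (hne t ht)) A ε hε
    refine ⟨B, C, T₀, fun F _ _ hF ι ξ T hT X hX => ?_⟩
    have h1 := H F hF ι ξ T hT X (fun x hx => ⟨(hX x hx).1, (hX x hx).2⟩)
    refine le_trans (le_of_eq ?_) h1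
    congr 2
    ext t
    constructor
    · rintro ⟨hX', P, hP1, hP2, u₀, hu₀, hu⟩
      exact ⟨⟨fun j => ⟨(hX _ (hX' j)).1, (hX _ (hX' j)).2⟩, P, hP1, hP2, u₀, hu₀, hu⟩, hX'⟩
    · rintro ⟨⟨-, P, hP1, hP2, u₀, hu₀, hu⟩, hX'⟩
      exact ⟨hX', P, hP1, hP2, u₀, hu₀, hu⟩

end Pool.Agent.Results.MP_e47f08_nt.RationalArguments
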